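import Pool.Agent.H45.NevPub.Defs
import Pool.Agent.H45.Nev.Final

/-!
# From the public definitions to the internal ones
-/

open MeasureTheory Set Metric Filter Topology
open scoped Manifold ContDiff

namespace Pool.Agent.H45.NevPub

open Pool.Agent.H45.Nev (Form11 inChart SesqField HolFoliation)

variable {E : Type*} [NormedAddCommGroup E] [NormedSpace ℂ E]
  {M : Type*} [TopologicalSpace M] [ChartedSpace E M]

/-- the internal form -/
noncomputable def Form.toInt (θ : Form E M) : Form11 E M :=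
  ⟨fun x => LinearMap.mk₂'ₛₗ (RingHom.id ℂ) (starRingEnd ℂ) (θ.val x)
    (fun v v' w => θ.add_left x v v' w) (fun c v w => θ.smul_left x c v w)
    (fun v w w' => θ.add_right x v w w') (fun c v w => θ.smul_right x c v w),
    fun e he v w => θ.smooth e he v w⟩

@[simp] lemma Form.toInt_apply (θ : Form E M) (x : M) (v w : TangentSpace 𝓘(ℂ, E) x) :
    θ.toInt.1 x v w = θ.val x v w := rfl

/-- the public form -/
noncomputable def ofInt (θ : Form11 E M) : Form E M where
  val x v w := θ.1 x v w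
  add_left x v v' w := by simp
  add_right x v w w' := by simp
  smul_left x c v w := by simp
  smul_right x c v w := by simp
  smooth e he v w := θ.2 e he v w

@[simp] lemma ofInt_val (θ : Form11 E M) (x : M) (v w : TangentSpace 𝓘(ℂ, E) x) :
    (ofInt θ).val x v w = θ.1 x v w := rfl

lemma Form.ext' {θ η : Form E M} (h : ∀ x v w, θ.val x v w = η.val x v w) : θ = η := by
  have h1 : θ.val = η.val := by
    funext x v w
    exact h x v w
  cases θ; cases η
  simp only at h1
  subst h1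
  rfl

lemma ofInt_toInt (θ : Form E M) : ofInt θ.toInt = θ := Form.ext' fun _ _ _ => rfl

lemma toInt_ofInt (θ : Form11 E M) : (ofInt θ).toInt = θ := by
  apply Subtype.ext
  funext x
  apply LinearMap.ext
  intro v
  apply LinearMap.ext
  intro w
  rfl

/-- the internal current -/
noncomputable def toCur (T : Form E M → ℂ) (hT : IsLinear T) : Form11 E M →ₗ[ℂ] ℂ where
  toFun θ := T (ofInt θ)
  map_add' θ η := by
    have := hT (ofInt (θ + η)) (ofInt θ) (ofInt η) 1 (fun x v w => by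
      simp only [ofInt_val, one_mul]; rfl)
    rw [this, one_mul]
  map_smul' c θ := by
    have h0 := hT (ofInt 0) (ofInt 0) (ofInt 0) 1 (fun x v w => by
      have : (ofInt (0 : Form11 E M)).val x v w = 0 := rfl
      rw [this]; ring)
    have h1 : T (ofInt (0 : Form11 E M)) = 0 := by
      rw [one_mul] at h0
      have := h0
      exact (left_eq_add.1 this)
    have := hT (ofInt (c • θ)) (ofInt 0) (ofInt θ) c (fun x v w => by
      have h2 : (ofInt (0 : Form11 E M)).val x v w = 0 := rfl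
      rw [h2, zero_add]; rfl)
    rw [this, h1, zero_add]
    rfl

@[simp] lemma toCur_apply (T : Form E M → ℂ) (hT : IsLinear T) (θ : Form11 E M) :
    toCur T hT θ = T (ofInt θ) := rfl

/-- the public current -/
noncomputable def ofCur (T : Form11 E M →ₗ[ℂ] ℂ) (θ : Form E M) : ℂ := T θ.toInt

lemma ofCur_linear (T : Form11 E M →ₗ[ℂ] ℂ) : IsLinear (ofCur T) := by
  intro θ θ₁ θ₂ c h
  have h1 : θ.toInt = θ₁.toInt + c • θ₂.toInt := by
    apply Subtype.ext
    funext x
    apply LinearMap.ext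
    intro v
    apply LinearMap.ext
    intro w
    exact h x v w
  unfold ofCur
  rw [h1, map_add, map_smul]
  rfl

/-- the internal foliation -/
def Foliation.toInt (F : Foliation E M) : HolFoliation E M where
  ι := F.ι
  U := F.U
  isOpen_U := F.isOpen_U
  cover := F.cover
  X := F.X
  holo := F.holo
  g := F.g
  g_holo := F.g_holo
  g_ne := F.g_ne
  X_eq := F.X_eq

section
variable [IsManifold 𝓘(ℂ, E) ω M]

lemma isSmooth_iff {u : M → ℝ} : IsSmooth E u ↔ Pool.Agent.H45.Nev.IsSmooth E u := by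
  constructor
  · intro h
    apply Pool.Agent.H45.Nev.isSmooth_of_chart
    intro x
    refine ⟨chartAt E x, Pool.Agent.H45.Nev.chartAt_mem_max x, mem_chart_source E x, ?_⟩
    filter_upwards [(chartAt E x).open_target.mem_nhds (mem_chart_target E x)] with y hy
    exact (h _ (Pool.Agent.H45.Nev.chartAt_mem_max x)).contDiffAt
      ((chartAt E x).open_target.mem_nhds hy)
  · intro h e he
    exact h.chart he

lemma isDdc_iff {u : M → ℝ} {θ : Form E M} :
    IsDdc u θ ↔ Pool.Agent.H45.Nev.IsDdc u θ.toInt := Iff.rfl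

lemma harmonic_toCur {F : Foliation E M} {T : Form E M → ℂ} (h : F.IsHarmonicCurrent T) :
    F.toInt.IsHarmonicCurrent (toCur T h.1) := by
  obtain ⟨h1, h2, h3, h4⟩ := h
  refine ⟨?_, ?_, ?_⟩
  · intro θ hθ
    exact h2 (ofInt θ) hθ
  · intro u hu θ hθ
    exact h3 u (isSmooth_iff.2 hu) (ofInt θ) (isDdc_iff.2 (by rw [toInt_ofInt]; exact hθ))
  · intro θ hθ
    exact h4 (ofInt θ) hθ

lemma harmonic_ofCur {F : Foliation E M} {T : Form11 E M →ₗ[ℂ] ℂ}
    (h : F.toInt.IsHarmonicCurrent T) : F.IsHarmonicCurrent (ofCur T) := by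
  obtain ⟨h2, h3, h4⟩ := h
  refine ⟨ofCur_linear T, ?_, ?_, ?_⟩
  · intro θ hθ
    exact h2 θ.toInt hθ
  · intro u hu θ hθ
    exact h3 u (isSmooth_iff.1 hu) θ.toInt (isDdc_iff.1 hθ)
  · intro θ hθ
    exact h4 θ.toInt hθ

lemma extremal_toCur {F : Foliation E M} {T : Form E M → ℂ} (h : F.IsExtremal T) :
    F.toInt.IsExtremal (toCur T h.1.1) := by
  refine ⟨harmonic_toCur h.1, ?_⟩
  intro T₁ T₂ h1 h2 hsum
  obtain ⟨c, hc⟩ := h.2 (ofCur T₁) (ofCur T₂) (harmonic_ofCur h1) (harmonic_ofCur h2) (by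
    intro θ
    have := congrArg (fun S : Form11 E M →ₗ[ℂ] ℂ => S θ.toInt) hsum
    simp only [toCur_apply, LinearMap.add_apply, ofInt_toInt] at this
    exact this)
  refine ⟨c, ?_⟩
  apply LinearMap.ext
  intro θ
  have := hc (ofInt θ)
  unfold ofCur at this
  rw [toInt_ofInt] at this
  rw [this]
  rfl

lemma leafDisc_toInt {F : Foliation E M} {φ : ℂ → M} (h : F.IsLeafDisc φ) :
    F.toInt.IsLeafDisc φ :=
  ⟨fun ξ hξ => (h ξ hξ).1.mdifferentiableWithinAt, fun ξ hξ => (h ξ hξ).2.1,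
    fun ξ hξ => (h ξ hξ).2.2⟩

lemma leafDisc_ofInt {F : Foliation E M} {φ : ℂ → M} (h : F.toInt.IsLeafDisc φ) :
    F.IsLeafDisc φ := fun ξ hξ =>
  ⟨(h.holo ξ hξ).mdifferentiableAt (isOpen_ball.mem_nhds hξ), h.notMem ξ hξ, h.tangent ξ hξ⟩

lemma covering_toInt {F : Foliation E M} {φ : ℂ → M} (h : F.IsUniversalCovering φ) :
    F.toInt.IsUniversalCovering φ :=
  { leafDisc_toInt h.1 with
    unramified := h.2.1
    lift := fun ψ hψ => h.2.2 ψ (leafDisc_ofInt hψ) }

end

lemma nevInt_toInt (φ : ℂ → M) (θ : Form E M) (r : ℝ) :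
    nevInt φ θ r = Pool.Agent.H45.Nev.nevInt φ θ.toInt r := rfl

lemma nevCurrent_toInt (κ : Form E M) (φ : ℂ → M) (r : ℝ) (θ : Form E M) :
    nevCurrent κ φ r θ = Pool.Agent.H45.Nev.nevCurrent κ.toInt φ r θ.toInt := rfl

/-- The geometric ergodic theorem. -/
theorem main [FiniteDimensional ℂ E] [IsManifold 𝓘(ℂ, E) ω M]
    [CompactSpace M] [T2Space M] [MeasurableSpace M] [BorelSpace M]
    (F : Foliation E M) (κ : Form E M) (hκ : κ.IsMetric)
    (T : Form E M → ℂ) (hT : F.IsExtremal T)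
    (μ : Measure M) [IsFiniteMeasure μ] (hμ : IsTraceMeasure T κ μ)
    (hhyp : ∀ᵐ a ∂μ, ∃ φ : ℂ → M, F.IsUniversalCovering φ ∧ φ 0 = a) :
    ∀ᵐ a ∂μ, ∀ φ : ℂ → M, F.IsUniversalCovering φ → φ 0 = a → ∀ θ : Form E M,
      Tendsto (fun r => nevCurrent κ φ r θ) (𝓝[<] 1) (𝓝 (T θ / T κ)) := by
  have h := Pool.Agent.H45.Nev.hol_geometric_ergodic F.toInt κ.toInt (fun x v hv => hκ x v hv)
    (toCur T hT.1.1) (extremal_toCur hT) μ (by
      intro f hf θ hθ
      exact hμ f (isSmooth_iff.2 hf) (ofInt θ) hθ) (by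
      filter_upwards [hhyp] with a ⟨φ, hφ, hφa⟩
      exact ⟨φ, covering_toInt hφ, hφa⟩)
  filter_upwards [h] with a ha φ hφ hφa θ
  have := ha φ (covering_toInt hφ) hφa θ.toInt
  simp only [toCur_apply, ofInt_toInt] at this
  exact this

end Pool.Agent.H45.NevPub
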