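import Mathlib

/-!
# Singular holomorphic foliations by Riemann surfaces, directed currents, Nevanlinna currents

`M` is a complex manifold modelled on the finite dimensional complex vector space `E`
(holomorphic charts: `IsManifold 𝓘(ℂ, E) ω M`).
-/

open MeasureTheory Set Metric Filter Topology
open scoped Manifold ContDiff

namespace Pool.Agent.H45.NevPub

section Forms

variable (E : Type*) [NormedAddCommGroup E] [NormedSpace ℂ E]
  (M : Type*) [TopologicalSpace M] [ChartedSpace E M]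

/-- The holomorphic charts of `M`. -/
def HolChart (e : OpenPartialHomeomorph M E) : Prop :=
  e ∈ IsManifold.maximalAtlas 𝓘(ℂ, E) ω M

variable {E M}

/-- The coefficient function in the chart `e`, in the directions `v`, `w`, of a family `θ` of
functions of two tangent vectors. -/
noncomputable def coef (e : OpenPartialHomeomorph M E)
    (θ : ∀ x : M, TangentSpace 𝓘(ℂ, E) x → TangentSpace 𝓘(ℂ, E) x → ℂ) (v w y : E) : ℂ :=
  θ (e.symm y) (mfderiv 𝓘(ℂ, E) 𝓘(ℂ, E) e.symm y v) (mfderiv 𝓘(ℂ, E) 𝓘(ℂ, E) e.symm y w)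

variable (E M)

/-- Smooth complex `(1,1)`-forms on `M`. The form `θ = (i/2) ∑ θ_{jk} dz_j ∧ dz̄_k` is encoded by
the sesquilinear forms `θ_x(v, w) = ∑ θ_{jk} v_j w̄_k` on the holomorphic tangent spaces; the
coefficients in all holomorphic charts are `C^∞`. -/
structure Form where
  /-- the sesquilinear forms -/
  val : ∀ x : M, TangentSpace 𝓘(ℂ, E) x → TangentSpace 𝓘(ℂ, E) x → ℂ
  add_left : ∀ x v v' w, val x (v + v') w = val x v w + val x v' w
  add_right : ∀ x v w w', val x v (w + w') = val x v w + val x v w'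
  smul_left : ∀ (x : M) (c : ℂ) v w, val x (c • v) w = c * val x v w
  smul_right : ∀ (x : M) (c : ℂ) v w, val x v (c • w) = (starRingEnd ℂ) c * val x v w
  smooth : ∀ e : OpenPartialHomeomorph M E, HolChart E M e → ∀ v w : E,
    ContDiffOn ℝ ∞ (coef e val v w) e.target

variable {E M}

/-- `θ ≥ 0`. -/
def Form.IsNonneg (θ : Form E M) : Prop :=
  ∀ x v, 0 ≤ (θ.val x v v).re ∧ (θ.val x v v).im = 0

/-- `κ > 0`: `κ` is the fundamental form of a smooth Hermitian metric on `M`. -/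
def Form.IsMetric (κ : Form E M) : Prop :=
  ∀ x v, v ≠ 0 → 0 < (κ.val x v v).re ∧ (κ.val x v v).im = 0

variable (E) in
/-- Smooth real functions on `M`. -/
def IsSmooth (u : M → ℝ) : Prop :=
  ∀ e : OpenPartialHomeomorph M E, HolChart E M e → ContDiffOn ℝ ∞ (u ∘ e.symm) e.target

/-- The second derivative of `u` at `y`, in the directions `v`, `w`. -/
noncomputable def hess (u : E → ℝ) (y v w : E) : ℝ := fderiv ℝ (fderiv ℝ u) y v w

/-- `θ = dd^c u` with `dd^c = (i/π) ∂∂̄`: in every holomorphic chart the coefficients are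
`θ(v, w) = (2/π) ∑ ∂²u/∂z_j∂z̄_k v_j w̄_k`, written with real second derivatives. -/
def IsDdc (u : M → ℝ) (θ : Form E M) : Prop :=
  ∀ e : OpenPartialHomeomorph M E, HolChart E M e → ∀ y ∈ e.target, ∀ v w : E,
    coef e θ.val v w y = 1 / (2 * Real.pi) *
      ((hess (u ∘ e.symm) y v w + hess (u ∘ e.symm) y (Complex.I • v) (Complex.I • w) : ℝ) +
        Complex.I * (hess (u ∘ e.symm) y v (Complex.I • w) -
          hess (u ∘ e.symm) y (Complex.I • v) w : ℝ))

/-- Linear functionals `T` on the smooth `(1,1)`-forms (currents of bidimension `(1,1)`; positive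
ones are automatically continuous). -/
def IsLinear (T : Form E M → ℂ) : Prop :=
  ∀ (θ θ₁ θ₂ : Form E M) (c : ℂ), (∀ x v w, θ.val x v w = θ₁.val x v w + c * θ₂.val x v w) →
    T θ = T θ₁ + c * T θ₂

/-- Positivity of a functional on forms. -/
def IsPositive (T : Form E M → ℂ) : Prop :=
  ∀ θ : Form E M, θ.IsNonneg → 0 ≤ (T θ).re ∧ (T θ).im = 0

/-- `dd^c T = 0`. -/
def IsDdcClosed (T : Form E M → ℂ) : Prop :=
  ∀ u : M → ℝ, IsSmooth E u → ∀ θ : Form E M, IsDdc u θ → T θ = 0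

/-- `μ` is the trace measure `T ∧ κ` of `T`. -/
def IsTraceMeasure [MeasurableSpace M] (T : Form E M → ℂ) (κ : Form E M) (μ : Measure M) :
    Prop :=
  ∀ f : M → ℝ, IsSmooth E f → ∀ θ : Form E M, (∀ x v w, θ.val x v w = f x * κ.val x v w) →
    T θ = (∫ x, f x ∂μ : ℝ)

end Forms

section Foliation

variable (E : Type*) [NormedAddCommGroup E] [NormedSpace ℂ E]
  (M : Type*) [TopologicalSpace M] [ChartedSpace E M]

/-- A singular holomorphic foliation by Riemann surfaces: an open cover `U i` with holomorphic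
vector fields `X i` on `U i` (they may vanish somewhere), such that `X i = g i j • X j` on
overlaps with nowhere vanishing holomorphic functions `g i j`. -/
structure Foliation where
  /-- index set of the cover -/
  ι : Type
  /-- the cover -/
  U : ι → Set M
  isOpen_U : ∀ i, IsOpen (U i)
  cover : ∀ x, ∃ i, x ∈ U i
  /-- the generating vector fields -/
  X : ι → ∀ x : M, TangentSpace 𝓘(ℂ, E) x
  /-- they are holomorphic -/
  holo : ∀ i, ∀ e : OpenPartialHomeomorph M E, HolChart E M e →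
    DifferentiableOn ℂ (fun y : E => (mfderiv 𝓘(ℂ, E) 𝓘(ℂ, E) e (e.symm y) (X i (e.symm y)) : E))
      (e.target ∩ e.symm ⁻¹' U i)
  /-- the transition functions -/
  g : ι → ι → M → ℂ
  g_holo : ∀ i j, MDifferentiableOn 𝓘(ℂ, E) 𝓘(ℂ, ℂ) (g i j) (U i ∩ U j)
  g_ne : ∀ i j, ∀ x ∈ U i ∩ U j, g i j x ≠ 0
  X_eq : ∀ i j, ∀ x ∈ U i ∩ U j, X i x = g i j x • X j x

variable {E M}

/-- The singular set of the foliation: the common zeros of the generating vector fields. -/
def Foliation.sing (F : Foliation E M) : Set M :=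
  {x | ∃ i, x ∈ F.U i ∧ F.X i x = 0}

/-- `v` is tangent to the foliation at `x`. -/
def Foliation.Tangent (F : Foliation E M) (x : M) (v : TangentSpace 𝓘(ℂ, E) x) : Prop :=
  ∃ i, x ∈ F.U i ∧ ∃ c : ℂ, v = c • F.X i x

/-- `T` is directed by the foliation: `T ∧ α = 0` for all smooth `(1,0)`-forms `α` vanishing on
the leaves; equivalently `T(θ) = 0` for each smooth `(1,1)`-form `θ` with `θ(v, ·) = 0` for
all vectors `v` tangent to the leaves (locally `θ` is a combination of forms `α ∧ β̄`). -/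
def Foliation.IsDirected (F : Foliation E M) (T : Form E M → ℂ) : Prop :=
  ∀ θ : Form E M, (∀ x ∉ F.sing, ∀ v w, F.Tangent x v → θ.val x v w = 0) → T θ = 0

/-- Positive `dd^c`-closed currents directed by the foliation. -/
def Foliation.IsHarmonicCurrent (F : Foliation E M) (T : Form E M → ℂ) : Prop :=
  IsLinear T ∧ IsPositive T ∧ IsDdcClosed T ∧ F.IsDirected T

/-- `T` is extremal among the positive `dd^c`-closed currents directed by the foliation. -/
def Foliation.IsExtremal (F : Foliation E M) (T : Form E M → ℂ) : Prop :=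
  F.IsHarmonicCurrent T ∧ ∀ T₁ T₂ : Form E M → ℂ,
    F.IsHarmonicCurrent T₁ → F.IsHarmonicCurrent T₂ → (∀ θ, T θ = T₁ θ + T₂ θ) →
      ∃ c : ℝ, ∀ θ, T₁ θ = c * T θ

/-- The derivative of a map from the plane to `M`. -/
noncomputable def dz (φ : ℂ → M) (ξ : ℂ) : TangentSpace 𝓘(ℂ, E) (φ ξ) :=
  mfderiv 𝓘(ℂ, ℂ) 𝓘(ℂ, E) φ ξ (1 : ℂ)

/-- A holomorphic map from the unit disc to a leaf of the foliation on the complement of the
singular set (only the values of `φ` on the unit disc matter). -/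
def Foliation.IsLeafDisc (F : Foliation E M) (φ : ℂ → M) : Prop :=
  ∀ ξ ∈ ball (0 : ℂ) 1, MDifferentiableAt 𝓘(ℂ, ℂ) 𝓘(ℂ, E) φ ξ ∧ φ ξ ∉ F.sing ∧
    F.Tangent (φ ξ) (dz φ ξ)

/-- `φ : 𝔻 → L` is a universal covering of a leaf `L`: it is an unramified holomorphic map to
the leaf through which all holomorphic maps from the disc to the leaf lift, with any prescribed
initial value of the lift. -/
def Foliation.IsUniversalCovering (F : Foliation E M) (φ : ℂ → M) : Prop :=
  F.IsLeafDisc φ ∧ (∀ ξ ∈ ball (0 : ℂ) 1, (dz φ ξ : TangentSpace 𝓘(ℂ, E) (φ ξ)) ≠ 0) ∧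
    ∀ ψ : ℂ → M, F.IsLeafDisc ψ → ∀ ξ ∈ ball (0 : ℂ) 1, ψ 0 = φ ξ →
      ∃ h : ℂ → ℂ, DifferentiableOn ℂ h (ball 0 1) ∧ MapsTo h (ball 0 1) (ball 0 1) ∧
        h 0 = ξ ∧ ∀ ζ ∈ ball (0 : ℂ) 1, φ (h ζ) = ψ ζ

/-- `∫₀ʳ (∫_{|ξ| < t} φ^*θ) dt / t`. -/
noncomputable def nevInt (φ : ℂ → M) (θ : Form E M) (r : ℝ) : ℂ :=
  ∫ t in Ioo (0 : ℝ) r, (∫ ξ in ball (0 : ℂ) t, θ.val (φ ξ) (dz φ ξ) (dz φ ξ)) / t

/-- The Nevanlinna current `τ_r = T(r)⁻¹ ∫₀ʳ φ_*[𝔻(t)] dt / t`, where `T(r) = nevInt φ κ r` is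
the Nevanlinna characteristic. -/
noncomputable def nevCurrent (κ : Form E M) (φ : ℂ → M) (r : ℝ) (θ : Form E M) : ℂ :=
  nevInt φ θ r / nevInt φ κ r

end Foliation

end Pool.Agent.H45.NevPub
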